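import Pool.Agent.H96.LAT.Net

/-!
# The common coarse body of two bodies of the same type

`B.crs ν`: the `k`-th side is the minimum of `2 ^ ν j` times the `j`-th side, `j ≤ k`. If the growth
`ν k` is at least the drop of the longer sides of the join, the coarse bodies of two bodies of the
same type are comparable.
-/

set_option autoImplicit false

namespace Pool.LAT

open Finset

variable {N : ℕ}

/-- The coarse body. -/
def Bd.crs (B : Bd N) (ν : Fin N → ℕ) : Bd N where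
  e := B.e
  r := fun k => (Iic k).inf' ⟨k, mem_Iic.mpr le_rfl⟩ fun j => B.r j + ν j
  anti := fun _ _ h => inf'_mono _ (Iic_subset_Iic.mpr h) _

theorem Bd.crs_le' (B : Bd N) (ν : Fin N → ℕ) {j k : Fin N} (h : j ≤ k) :
    (B.crs ν).r k ≤ B.r j + ν j := inf'_le _ (mem_Iic.mpr h)

theorem Bd.crs_r_le (B : Bd N) (ν : Fin N → ℕ) (k : Fin N) : (B.crs ν).r k ≤ B.r k + ν k :=
  B.crs_le' ν le_rfl

theorem Bd.le_crs_r (B : Bd N) (ν : Fin N → ℕ) (k : Fin N) : B.r k ≤ (B.crs ν).r k := by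
  change B.r k ≤ (Iic k).inf' ⟨k, mem_Iic.mpr le_rfl⟩ fun j => B.r j + ν j
  refine le_inf' _ _ fun j hj => ?_
  have h1 := B.anti (mem_Iic.mp hj)
  have : (0 : ℤ) ≤ ν j := Nat.cast_nonneg _
  linarith

theorem Bd.exists_crs (B : Bd N) (ν : Fin N → ℕ) (k : Fin N) :
    ∃ j ≤ k, (B.crs ν).r k = B.r j + ν j := by
  obtain ⟨j, hj, h⟩ := exists_mem_eq_inf' (s := Iic k) ⟨k, mem_Iic.mpr le_rfl⟩
    (fun j => B.r j + (ν j : ℤ))
  exact ⟨j, mem_Iic.mp hj, h⟩

/-- The body is inside the coarse body. -/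
theorem Bd.le_crs (B : Bd N) (ν : Fin N → ℕ) : B.le 1 (B.crs ν) := fun x hx a => by
  change |inner ℝ (B.e a) x| ≤ 1 * (B.crs ν).s a
  rw [_root_.one_mul]
  exact (hx a).trans (zpow_le_zpow_right₀ (by norm_num) (B.le_crs_r ν a))

/-- The coarse body is inside a multiple of the body. -/
theorem Bd.crs_le_mul (B : Bd N) {ν : Fin N → ℕ} {k : ℕ} (h : ∀ j, ν j ≤ k) :
    (B.crs ν).le (2 ^ k) B := fun x hx a => by
  change |inner ℝ (B.e a) x| ≤ 2 ^ k * B.s a
  refine (hx a).trans ?_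
  have h1 : (B.crs ν).r a ≤ (k : ℤ) + B.r a := by
    have := B.crs_r_le ν a
    have h2 : (ν a : ℤ) ≤ k := by exact_mod_cast h a
    linarith
  have h2 : (2 : ℝ) ^ (B.crs ν).r a ≤ (2 : ℝ) ^ ((k : ℤ) + B.r a) :=
    zpow_le_zpow_right₀ (by norm_num) h1
  rw [zpow_add₀ (by norm_num), zpow_natCast] at h2
  exact h2

/-- The constant, as a power of two. -/
noncomputable def cN (N : ℕ) : ℕ := (exists_nat_gt (Real.logb 2 (cL N + 1))).choose

theorem cL_nonneg (N : ℕ) : 0 ≤ cL N := by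
  unfold cL
  positivity

theorem cL_le (N : ℕ) : cL N ≤ 2 ^ cN N := by
  have h1 := (exists_nat_gt (Real.logb 2 (cL N + 1))).choose_spec
  have h0 := cL_nonneg N
  have h2 : cL N + 1 < 2 ^ cN N := by
    rw [Real.logb_lt_iff_lt_rpow (by norm_num) (by linarith)] at h1
    rw [← Real.rpow_natCast]
    exact h1
  linarith

/-- The growth. -/
noncomputable def grw (g : Fin N → ℕ) (k : Fin N) : ℕ := k * (cN N + ∑ j ∈ Iio k, g j)

theorem grw_step (g : Fin N → ℕ) {i k : Fin N} (h : i < k) :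
    cN N + ∑ j ∈ Iio k, g j + grw g i ≤ grw g k := by
  have h1 : ∑ j ∈ Iio i, g j ≤ ∑ j ∈ Iio k, g j :=
    sum_le_sum_of_subset (Iio_subset_Iio h.le)
  have h2 : (i : ℕ) + 1 ≤ k := h
  calc cN N + ∑ j ∈ Iio k, g j + grw g i
      ≤ cN N + ∑ j ∈ Iio k, g j + i * (cN N + ∑ j ∈ Iio k, g j) := by
        unfold grw
        gcongr
    _ = (i + 1) * (cN N + ∑ j ∈ Iio k, g j) := by ring
    _ ≤ grw g k := Nat.mul_le_mul_right _ h2

/-- **The coarse bodies of two bodies of the same type are comparable.** `J` is inside both bodies,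
`g j` is the drop of the `j`-th side. -/
theorem crs_le {A B J : Bd N} (hr : A.r = B.r) (hA : J.le 1 A) (hB : J.le 1 B) {g : Fin N → ℕ}
    (hg : ∀ j, A.r j ≤ J.r j + g j) {ν : Fin N → ℕ}
    (hν : ∀ i k, i < k → cN N + ∑ j ∈ Iio k, g j + ν i ≤ ν k) :
    (B.crs ν).le N (A.crs ν) := by
  classical
  have hs : B.s = A.s := by
    funext a
    rw [Bd.s, Bd.s, hr]
  have hAe : Bx J.e J.s ⊆ Bx A.e A.s := by
    have := hA
    rw [Bd.le, Bd.mul_one] at this
    exact this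
  have hBe : Bx J.e J.s ⊆ Bx B.e A.s := by
    have := hB
    rw [Bd.le, Bd.mul_one, Bd.set, Bd.set, hs] at this
    exact this
  have hmul := Bd.le_of_ax (A := B.crs ν) (B := A.crs ν) (κ := 1) ?_
  · rw [_root_.mul_one] at hmul
    exact hmul
  intro i a
  change |inner ℝ (A.e a) ((B.crs ν).s i • B.e i)| ≤ 1 * (A.crs ν).s a
  rw [_root_.one_mul, inner_smul_right, abs_mul, abs_of_pos ((B.crs ν).s_pos i)]
  -- the side of the coarse body
  obtain ⟨k, hk, hka⟩ := A.exists_crs ν a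
  have hn : (A.crs ν).s a = A.s k * 2 ^ ν k := by
    rw [Bd.s, hka, zpow_add₀ (by norm_num), zpow_natCast]
    rfl
  rw [hn]
  have h1 : |inner ℝ (A.e a) (B.e i)| ≤ 1 := by
    refine (abs_real_inner_le_norm _ _).trans ?_
    rw [A.e.norm_eq_one, B.e.norm_eq_one, _root_.mul_one]
  by_cases hik : i < k
  · -- the lattice lemma
    have h2 : (B.crs ν).s i ≤ B.s i * 2 ^ ν i := by
      have h3 : (2 : ℝ) ^ (B.crs ν).r i ≤ (2 : ℝ) ^ (B.r i + (ν i : ℤ)) :=
        zpow_le_zpow_right₀ (by norm_num) (B.crs_r_le ν i)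
      rw [zpow_add₀ (by norm_num), zpow_natCast] at h3
      exact h3
    have h4 : B.s i * |inner ℝ (A.e a) (B.e i)| ≤
        cL N * (∏ j ∈ Iio k, A.s j / J.s j) * A.s k := by
      have h5 := lat A.e B.e J.e (r := A.s) (s := J.s) A.s_pos A.s_anti J.s_pos hAe hBe k
        (x := B.s i • B.e i) (by
          have := B.ax_mem i
          rw [Bd.set, hs] at this
          rw [hs]
          exact this) a
      rw [inner_smul_right, abs_mul, abs_of_pos (B.s_pos i), max_eq_right (A.s_anti hk)] at h5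
      exact h5
    have h6 : ∏ j ∈ Iio k, A.s j / J.s j ≤ 2 ^ (∑ j ∈ Iio k, g j) := by
      rw [← prod_pow_eq_pow_sum]
      refine prod_le_prod (fun j _ => (div_pos (A.s_pos j) (J.s_pos j)).le) fun j _ => ?_
      rw [div_le_iff₀ (J.s_pos j), Bd.s, Bd.s, ← zpow_natCast, ← zpow_add₀ (by norm_num)]
      exact zpow_le_zpow_right₀ (by norm_num) (by linarith [hg j])
    calc (B.crs ν).s i * |inner ℝ (A.e a) (B.e i)|
        ≤ B.s i * 2 ^ ν i * |inner ℝ (A.e a) (B.e i)| :=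
          mul_le_mul_of_nonneg_right h2 (abs_nonneg _)
      _ = 2 ^ ν i * (B.s i * |inner ℝ (A.e a) (B.e i)|) := by ring
      _ ≤ 2 ^ ν i * (cL N * (∏ j ∈ Iio k, A.s j / J.s j) * A.s k) :=
          mul_le_mul_of_nonneg_left h4 (by positivity)
      _ ≤ 2 ^ ν i * (2 ^ cN N * 2 ^ (∑ j ∈ Iio k, g j) * A.s k) := by
          refine mul_le_mul_of_nonneg_left (mul_le_mul_of_nonneg_right
            (mul_le_mul (cL_le N) h6 ?_ (by positivity)) (A.s_pos k).le) (by positivity)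
          exact prod_nonneg fun j _ => (div_pos (A.s_pos j) (J.s_pos j)).le
      _ = A.s k * 2 ^ (cN N + ∑ j ∈ Iio k, g j + ν i) := by
          rw [pow_add, pow_add]
          ring
      _ ≤ A.s k * 2 ^ ν k := mul_le_mul_of_nonneg_left
          (pow_le_pow_right₀ (by norm_num) (hν i k hik)) (A.s_pos k).le
  · have h2 : (B.crs ν).s i ≤ A.s k * 2 ^ ν k := by
      have h3 : (2 : ℝ) ^ (B.crs ν).r i ≤ (2 : ℝ) ^ (B.r k + (ν k : ℤ)) :=
        zpow_le_zpow_right₀ (by norm_num) (B.crs_le' ν (not_lt.mp hik))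
      rw [zpow_add₀ (by norm_num), zpow_natCast, ← hr] at h3
      exact h3
    calc (B.crs ν).s i * |inner ℝ (A.e a) (B.e i)| ≤ A.s k * 2 ^ ν k * 1 :=
          mul_le_mul h2 h1 (abs_nonneg _) (mul_nonneg (A.s_pos k).le (by positivity))
      _ = A.s k * 2 ^ ν k := _root_.mul_one _

/-- **Both inclusions.** -/
theorem crs_near {A B J : Bd N} (hr : A.r = B.r) (hA : J.le 1 A) (hB : J.le 1 B) {g : Fin N → ℕ}
    (hg : ∀ j, A.r j ≤ J.r j + g j) {ν : Fin N → ℕ}
    (hν : ∀ i k, i < k → cN N + ∑ j ∈ Iio k, g j + ν i ≤ ν k) :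
    (B.crs ν).near N (A.crs ν) :=
  ⟨crs_le hr hA hB hg hν, crs_le hr.symm hB hA (fun j => by rw [← hr]; exact hg j) hν⟩

end Pool.LAT
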