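import Pool.Agent.H96.LAT.Lat

/-!
# Bodies

A body of `ℝ^N`: a box whose sides are powers of two, in decreasing order, with any orthonormal axes.
`Bd.le κ A B`: `A ⊆ κ B`.
-/

set_option autoImplicit false

namespace Pool.LAT

open Finset

/-- The space. -/
abbrev Sp (N : ℕ) : Type := EuclideanSpace ℝ (Fin N)

/-- A body: a box with dyadic sides. -/
structure Bd (N : ℕ) where
  /-- the axes -/
  e : OrthonormalBasis (Fin N) ℝ (Sp N)
  /-- the exponents of the half sides -/
  r : Fin N → ℤ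
  /-- the sides are decreasing -/
  anti : Antitone r

variable {N : ℕ}

/-- The half sides. -/
noncomputable def Bd.s (B : Bd N) (a : Fin N) : ℝ := (2 : ℝ) ^ B.r a

theorem Bd.s_pos (B : Bd N) (a : Fin N) : 0 < B.s a := zpow_pos (by norm_num) _

theorem Bd.s_anti (B : Bd N) : Antitone B.s := fun _ _ h =>
  zpow_le_zpow_right₀ (by norm_num) (B.anti h)

/-- The set of the body. -/
def Bd.set (B : Bd N) : Set (Sp N) := Bx B.e B.s

/-- The multiple of the set of the body. -/
def Bd.mul (κ : ℝ) (B : Bd N) : Set (Sp N) := Bx B.e (fun a => κ * B.s a)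

/-- The inclusion in a multiple. -/
def Bd.le (κ : ℝ) (A B : Bd N) : Prop := A.set ⊆ B.mul κ

theorem Bd.mul_one (B : Bd N) : B.mul 1 = B.set := by
  simp [Bd.mul, Bd.set]

theorem smul_mem_Bx (e : OrthonormalBasis (Fin N) ℝ (Sp N)) (r : Fin N → ℝ) {x : Sp N} {c : ℝ}
    (hx : x ∈ Bx e r) : c • x ∈ Bx e (fun a => |c| * r a) := fun a => by
  rw [inner_smul_right, abs_mul]
  exact mul_le_mul_of_nonneg_left (hx a) (abs_nonneg _)

theorem Bd.mul_mono {κ κ' : ℝ} (h : κ ≤ κ') (B : Bd N) : B.mul κ ⊆ B.mul κ' := fun _ hx a =>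
  (hx a).trans (mul_le_mul_of_nonneg_right h (B.s_pos a).le)

/-- Multiples of points of a body. -/
theorem Bd.smul_mem {B : Bd N} {κ c : ℝ} {x : Sp N} (hx : x ∈ B.mul κ) :
    c • x ∈ B.mul (|c| * κ) := fun a => by
  rw [inner_smul_right, abs_mul]
  have := mul_le_mul_of_nonneg_left (hx a) (abs_nonneg c)
  linarith [this]

theorem Bd.add_mem {B : Bd N} {κ κ' : ℝ} {x y : Sp N} (hx : x ∈ B.mul κ) (hy : y ∈ B.mul κ') :
    x + y ∈ B.mul (κ + κ') := fun a => by
  change |inner ℝ (B.e a) (x + y)| ≤ (κ + κ') * B.s a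
  rw [inner_add_right, add_mul]
  exact (abs_add_le _ _).trans (add_le_add (hx a) (hy a))

theorem Bd.neg_mem {B : Bd N} {κ : ℝ} {x : Sp N} (hx : x ∈ B.mul κ) : -x ∈ B.mul κ := fun a => by
  rw [inner_neg_right, abs_neg]
  exact hx a

theorem Bd.sub_mem {B : Bd N} {κ κ' : ℝ} {x y : Sp N} (hx : x ∈ B.mul κ) (hy : y ∈ B.mul κ') :
    x - y ∈ B.mul (κ + κ') := by
  rw [sub_eq_add_neg]
  exact Bd.add_mem hx (Bd.neg_mem hy)

theorem Bd.sum_mem {B : Bd N} {ι : Type*} (S : Finset ι) {κ : ι → ℝ} {x : ι → Sp N}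
    (h : ∀ i ∈ S, x i ∈ B.mul (κ i)) : ∑ i ∈ S, x i ∈ B.mul (∑ i ∈ S, κ i) := fun a => by
  change |inner ℝ (B.e a) (∑ i ∈ S, x i)| ≤ (∑ i ∈ S, κ i) * B.s a
  rw [inner_sum, sum_mul]
  exact (abs_sum_le_sum_abs _ _).trans (sum_le_sum fun i hi => h i hi a)

/-- The inclusion for the multiples. -/
theorem Bd.le.mul {κ κ' : ℝ} {A B : Bd N} (h : A.le κ B) (hκ' : 0 < κ') :
    A.mul κ' ⊆ B.mul (κ' * κ) := by
  intro x hx
  have h1 : κ'⁻¹ • x ∈ A.set := by
    intro a
    rw [inner_smul_right, abs_mul, abs_of_pos (inv_pos.mpr hκ'), inv_mul_le_iff₀ hκ']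
    exact hx a
  have h2 := Bd.smul_mem (c := κ') (h h1)
  rw [smul_smul, mul_inv_cancel₀ hκ'.ne', one_smul, abs_of_pos hκ'] at h2
  exact h2

theorem Bd.le_refl (B : Bd N) : B.le 1 B := by
  rw [Bd.le, Bd.mul_one]

theorem Bd.le.trans {κ κ' : ℝ} {A B D : Bd N} (h : A.le κ B) (h' : B.le κ' D) (hκ : 0 < κ) :
    A.le (κ * κ') D := fun _ hx => h'.mul hκ (h hx)

theorem Bd.le.mono {κ κ' : ℝ} {A B : Bd N} (h : A.le κ B) (hκ : κ ≤ κ') : A.le κ' B :=
  fun _ hx => Bd.mul_mono hκ B (h hx)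

/-- The vertices of a body. -/
theorem Bd.ax_mem (B : Bd N) (b : Fin N) : B.s b • B.e b ∈ B.set := fun a => by
  rw [inner_smul_right, abs_mul, abs_of_pos (B.s_pos b)]
  by_cases h : a = b
  · subst h
    rw [real_inner_self_eq_norm_sq, B.e.norm_eq_one]
    norm_num
  · rw [B.e.orthonormal.2 h, abs_zero, mul_zero]
    exact (B.s_pos a).le

/-- The expansion of a point of a multiple of a body. -/
theorem Bd.expand (B : Bd N) (x : Sp N) : x = ∑ a, (inner ℝ (B.e a) x / B.s a) • (B.s a • B.e a) := by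
  conv_lhs => rw [← B.e.sum_repr' x]
  refine sum_congr rfl fun a _ => ?_
  rw [smul_smul, div_mul_cancel₀ _ (B.s_pos a).ne']

theorem Bd.coef_le {B : Bd N} {κ : ℝ} {x : Sp N} (hx : x ∈ B.mul κ) (a : Fin N) :
    |inner ℝ (B.e a) x / B.s a| ≤ κ := by
  rw [abs_div, abs_of_pos (B.s_pos a), div_le_iff₀ (B.s_pos a)]
  exact hx a

/-- An inclusion follows from the inclusion of the axes. -/
theorem Bd.le_of_ax {κ : ℝ} {A B : Bd N} (h : ∀ b, A.s b • A.e b ∈ B.mul κ) :
    A.le (N * κ) B := by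
  intro x hx
  rw [A.expand x]
  have h1 := Bd.sum_mem (B := B) univ (κ := fun _ => κ)
    (x := fun a => (inner ℝ (A.e a) x / A.s a) • (A.s a • A.e a)) (fun a _ => by
      have h2 := Bd.smul_mem (c := inner ℝ (A.e a) x / A.s a) (h a)
      refine Bd.mul_mono ?_ B h2
      have h3 : |inner ℝ (A.e a) x / A.s a| ≤ 1 :=
        Bd.coef_le (B := A) (κ := 1) (by rw [Bd.mul_one]; exact hx) a
      have h4 : 0 ≤ κ := by
        have h5 := h a a
        have h6 : 0 ≤ κ * B.s a := (abs_nonneg _).trans h5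
        exact nonneg_of_mul_nonneg_left h6 (B.s_pos a)
      nlinarith)
  rw [sum_const, card_univ, Fintype.card_fin, nsmul_eq_mul] at h1
  exact h1

/-! ### Monotonicity of the sides -/

/-- **Min-max**: the sides are monotone, up to a factor. -/
theorem Bd.s_le {κ : ℝ} {A B : Bd N} (h : A.le κ B) (j : Fin N) : A.s j ≤ N * κ * B.s j := by
  classical
  -- a unit vector orthogonal to the long axes of `B` and to the short axes of `A`
  set V : Submodule ℝ (Sp N) := Submodule.span ℝ (A.e '' {i | i ≤ j}) with hV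
  set W : Submodule ℝ (Sp N) := Submodule.span ℝ (B.e '' {i | j ≤ i}) with hW
  have hfin : Module.finrank ℝ (Sp N) = N := by simp
  have hVd : Module.finrank ℝ V = (j : ℕ) + 1 := by
    have h1 : A.e '' {i | i ≤ j} = Set.range (A.e ∘ (Subtype.val : {i // i ≤ j} → Fin N)) := by
      ext x; simp
    rw [hV, h1, finrank_span_eq_card
      (A.e.orthonormal.comp _ Subtype.val_injective).linearIndependent]
    have h2 : Fintype.card {i // i ≤ j} = (Iic j).card := by
      rw [Fintype.card_subtype]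
      congr 1
      ext i
      simp
    rw [h2, Fin.card_Iic]
  have hWd : Module.finrank ℝ W = N - (j : ℕ) := by
    have h1 : B.e '' {i | j ≤ i} = Set.range (B.e ∘ (Subtype.val : {i // j ≤ i} → Fin N)) := by
      ext x; simp
    rw [hW, h1, finrank_span_eq_card
      (B.e.orthonormal.comp _ Subtype.val_injective).linearIndependent]
    have h2 : Fintype.card {i // j ≤ i} = (Ici j).card := by
      rw [Fintype.card_subtype]
      congr 1
      ext i
      simp
    rw [h2, Fin.card_Ici]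
  have hne : V ⊓ W ≠ ⊥ := by
    intro h0
    have h1 := Submodule.finrank_sup_add_finrank_inf_eq V W
    rw [h0, finrank_bot, hVd, hWd] at h1
    have h2 := Submodule.finrank_le (V ⊔ W)
    rw [hfin] at h2
    have h3 := j.2
    omega
  obtain ⟨z, hz, hz0⟩ := Submodule.exists_mem_ne_zero_of_ne_bot hne
  obtain ⟨hzV, hzW⟩ := Submodule.mem_inf.mp hz
  have hA : ∀ i, j < i → inner ℝ (A.e i) z = 0 := by
    intro i hi
    refine Submodule.span_induction (p := fun z _ => inner ℝ (A.e i) z = 0) ?_ (by simp) ?_ ?_ hzV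
    · rintro _ ⟨l, hl, rfl⟩
      exact A.e.orthonormal.2 (ne_of_gt (lt_of_le_of_lt hl hi))
    · intro x y _ _ hx hy
      rw [inner_add_right, hx, hy, add_zero]
    · intro c x _ hx
      rw [inner_smul_right, hx, mul_zero]
  have hB : ∀ i, i < j → inner ℝ (B.e i) z = 0 := by
    intro i hi
    refine Submodule.span_induction (p := fun z _ => inner ℝ (B.e i) z = 0) ?_ (by simp) ?_ ?_ hzW
    · rintro _ ⟨l, hl, rfl⟩
      exact B.e.orthonormal.2 (ne_of_lt (lt_of_lt_of_le hi hl))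
    · intro x y _ _ hx hy
      rw [inner_add_right, hx, hy, add_zero]
    · intro c x _ hx
      rw [inner_smul_right, hx, mul_zero]
  have hn : 0 < ‖z‖ := norm_pos_iff.mpr hz0
  -- the multiple of length `A.s j` is in `A`
  have hm : (A.s j / ‖z‖) • z ∈ A.set := by
    intro a
    rw [inner_smul_right, abs_mul, abs_of_pos (div_pos (A.s_pos j) hn)]
    by_cases ha : a ≤ j
    · have h1 : |inner ℝ (A.e a) z| ≤ ‖z‖ := by
        refine (abs_real_inner_le_norm _ _).trans ?_
        rw [A.e.norm_eq_one, _root_.one_mul]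
      have h2 : A.s j ≤ A.s a := A.s_anti ha
      calc A.s j / ‖z‖ * |inner ℝ (A.e a) z| ≤ A.s j / ‖z‖ * ‖z‖ :=
            mul_le_mul_of_nonneg_left h1 (div_pos (A.s_pos j) hn).le
        _ = A.s j := div_mul_cancel₀ _ hn.ne'
        _ ≤ A.s a := h2
    · rw [hA a (not_le.mp ha), abs_zero, mul_zero]
      exact (A.s_pos a).le
  have hm2 := h hm
  -- its length
  have h3 : A.s j = ‖(A.s j / ‖z‖) • z‖ := by
    rw [norm_smul, Real.norm_eq_abs, abs_of_pos (div_pos (A.s_pos j) hn), div_mul_cancel₀ _ hn.ne']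
  rw [h3]
  conv_lhs => rw [← B.e.sum_repr' ((A.s j / ‖z‖) • z)]
  refine (norm_sum_le _ _).trans ((sum_le_card_nsmul univ _ (κ * B.s j) ?_).trans ?_)
  · intro a _
    rw [norm_smul, B.e.norm_eq_one, _root_.mul_one, Real.norm_eq_abs]
    have hκ : 0 ≤ κ := nonneg_of_mul_nonneg_left ((abs_nonneg _).trans (hm2 a)) (B.s_pos a)
    by_cases ha : a < j
    · rw [inner_smul_right, hB a ha, mul_zero, abs_zero]
      exact mul_nonneg hκ (B.s_pos j).le
    · exact (hm2 a).trans (mul_le_mul_of_nonneg_left (B.s_anti (not_lt.mp ha)) hκ)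
  · rw [card_univ, Fintype.card_fin, nsmul_eq_mul, mul_assoc]

end Pool.LAT
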