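import Pool.Agent.H96.LAT.Body

/-!
# Bodies for systems of linear inequalities

`exists_body`: for each finite system of linear functionals with trivial common kernel there is a body
which is the set `|φ i x| ≤ 1` up to a factor. `exists_join`: the intersection of two bodies.
`exists_img`: the image of a body by a linear map.
-/

set_option autoImplicit false

namespace Pool.LAT

open Finset

variable {N : ℕ}

/-- **A body for a finite system of linear inequalities.** -/
theorem exists_body {ι : Type*} [Fintype ι] (φ : ι → Sp N →ₗ[ℝ] ℝ)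
    (h : ∀ x, (∀ i, φ i x = 0) → x = 0) :
    ∃ B : Bd N, (∀ x ∈ B.set, ∀ i, |φ i x| ≤ 1) ∧
      ∀ κ, 0 ≤ κ → ∀ x, (∀ i, |φ i x| ≤ κ) →
        x ∈ B.mul (2 * Real.sqrt (N * Fintype.card ι) * κ) := by
  classical
  -- the map to the Euclidean space
  set Φ : Sp N →ₗ[ℝ] EuclideanSpace ℝ ι :=
    (WithLp.linearEquiv 2 ℝ (ι → ℝ)).symm.toLinearMap ∘ₗ LinearMap.pi φ with hΦ
  have hΦa : ∀ x i, (Φ x) i = φ i x := fun x i => rfl
  have hΦn : ∀ x, ‖Φ x‖ ^ 2 = ∑ i, φ i x ^ 2 := by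
    intro x
    rw [EuclideanSpace.norm_sq_eq]
    exact sum_congr rfl fun i _ => by rw [hΦa, Real.norm_eq_abs, sq_abs]
  have hsym := Φ.isSymmetric_adjoint_comp_self
  have hfin : Module.finrank ℝ (Sp N) = N := by simp
  set v := hsym.eigenvectorBasis hfin with hv
  set μ := hsym.eigenvalues hfin with hμ
  have hq : ∀ x, ‖Φ x‖ ^ 2 = ∑ a, μ a * inner ℝ (v a) x ^ 2 := by
    intro x
    rw [← real_inner_self_eq_norm_sq, ← LinearMap.adjoint_inner_right Φ x (Φ x)]
    have h1 : LinearMap.adjoint Φ (Φ x) = (LinearMap.adjoint Φ ∘ₗ Φ) x := rfl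
    rw [h1, ← v.sum_inner_mul_inner x]
    refine sum_congr rfl fun a _ => ?_
    have h2 : inner ℝ (v a) ((LinearMap.adjoint Φ ∘ₗ Φ) x) = μ a * inner ℝ (v a) x := by
      rw [← hsym (v a) x]
      have h3 := hsym.apply_eigenvectorBasis hfin a
      rw [hv, h3, inner_smul_left]
      simp [hμ]
    rw [h2, real_inner_comm]
    ring
  have hμpos : ∀ a, 0 < μ a := by
    intro a
    have h1 := hq (v a)
    have h2 : ∑ b, μ b * inner ℝ (v b) (v a) ^ 2 = μ a := by
      rw [sum_eq_single a]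
      · rw [real_inner_self_eq_norm_sq, v.norm_eq_one]
        norm_num
      · intro b _ hb
        rw [v.orthonormal.2 hb]
        norm_num
      · intro hh
        exact absurd (mem_univ _) hh
    rw [h2] at h1
    rw [← h1]
    have h3 : Φ (v a) ≠ 0 := by
      intro h0
      have h4 : v a = 0 := h _ fun i => by rw [← hΦa, h0]; rfl
      have h5 := v.norm_eq_one a
      rw [h4, norm_zero] at h5
      norm_num at h5
    positivity
  have hanti : Antitone μ := hsym.eigenvalues_antitone hfin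
  -- the body
  have hy : ∀ a : Fin N, 0 < 1 / Real.sqrt (N * μ (Fin.rev a)) := by
    intro a
    have hN : (0 : ℝ) < N := by exact_mod_cast a.pos
    have := hμpos (Fin.rev a)
    positivity
  let B : Bd N :=
    { e := v.reindex Fin.revPerm
      r := fun a => Int.log 2 (1 / Real.sqrt (N * μ (Fin.rev a)))
      anti := by
        intro a b hab
        refine Int.log_mono_right (hy b) ?_
        have hN : (0 : ℝ) < N := by exact_mod_cast a.pos
        have h1 : μ (Fin.rev a) ≤ μ (Fin.rev b) := hanti (Fin.rev_le_rev.mpr hab)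
        have h2 : 0 < (N : ℝ) * μ (Fin.rev a) := mul_pos hN (hμpos _)
        exact one_div_le_one_div_of_le (Real.sqrt_pos.mpr h2)
          (Real.sqrt_le_sqrt (mul_le_mul_of_nonneg_left h1 hN.le)) }
  have hBe : ∀ a, B.e a = v (Fin.rev a) := fun a => by
    simp [B, OrthonormalBasis.reindex_apply]
  have hs1 : ∀ a, B.s a ≤ 1 / Real.sqrt (N * μ (Fin.rev a)) := fun a => by
    have := Int.zpow_log_le_self (b := 2) (by norm_num) (hy a)
    exact_mod_cast this
  have hs2 : ∀ a, 1 / Real.sqrt (N * μ (Fin.rev a)) < 2 * B.s a := fun a => by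
    have := Int.lt_zpow_succ_log_self (b := 2) (by norm_num) (1 / Real.sqrt (N * μ (Fin.rev a)))
    have h2 : (2 : ℝ) * B.s a = (2 : ℝ) ^ (B.r a + 1) := by
      rw [Bd.s, zpow_add₀ (by norm_num), zpow_one]
      ring
    rw [h2]
    exact_mod_cast this
  have hq2 : ∀ x, ‖Φ x‖ ^ 2 = ∑ a, μ (Fin.rev a) * inner ℝ (B.e a) x ^ 2 := by
    intro x
    rw [hq x]
    exact (Equiv.sum_comp Fin.revPerm fun a => μ a * inner ℝ (v a) x ^ 2).symm.trans
      (sum_congr rfl fun a _ => by rw [hBe]; rfl)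
  refine ⟨B, fun x hx i => ?_, fun κ hκ x hx a => ?_⟩
  · have h1 : φ i x ^ 2 ≤ 1 := by
      have h2 : φ i x ^ 2 ≤ ‖Φ x‖ ^ 2 := by
        rw [hΦn]
        exact single_le_sum (f := fun i => φ i x ^ 2) (fun j _ => sq_nonneg _) (mem_univ i)
      refine h2.trans ?_
      rw [hq2]
      have h3 : ∀ a ∈ (univ : Finset (Fin N)), μ (Fin.rev a) * inner ℝ (B.e a) x ^ 2 ≤
          1 / (N : ℝ) := by
        intro a _
        have hN : (0 : ℝ) < N := by exact_mod_cast a.pos
        have h4 : |inner ℝ (B.e a) x| ≤ 1 / Real.sqrt (N * μ (Fin.rev a)) := (hx a).trans (hs1 a)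
        have h5 : inner ℝ (B.e a) x ^ 2 ≤ 1 / (N * μ (Fin.rev a)) := by
          rw [← sq_abs]
          calc |inner ℝ (B.e a) x| ^ 2 ≤ (1 / Real.sqrt (N * μ (Fin.rev a))) ^ 2 :=
                pow_le_pow_left₀ (abs_nonneg _) h4 2
            _ = 1 / (N * μ (Fin.rev a)) := by
                rw [div_pow, one_pow, Real.sq_sqrt (mul_pos hN (hμpos _)).le]
        calc μ (Fin.rev a) * inner ℝ (B.e a) x ^ 2 ≤ μ (Fin.rev a) * (1 / (N * μ (Fin.rev a))) :=
              mul_le_mul_of_nonneg_left h5 (hμpos _).le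
          _ = 1 / (N : ℝ) := by
              field_simp [(hμpos (Fin.rev a)).ne']
      by_cases hN : N = 0
      · subst hN
        simp
      · refine (sum_le_card_nsmul _ _ _ h3).trans ?_
        rw [card_univ, Fintype.card_fin, nsmul_eq_mul, mul_one_div, div_self]
        exact_mod_cast hN
    exact (sq_le_one_iff_abs_le_one _).mp h1
  · change |inner ℝ (B.e a) x| ≤ 2 * Real.sqrt (N * Fintype.card ι) * κ * B.s a
    have hN : (0 : ℝ) < N := by exact_mod_cast a.pos
    have h1 : μ (Fin.rev a) * inner ℝ (B.e a) x ^ 2 ≤ Fintype.card ι * κ ^ 2 := by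
      have h2 : μ (Fin.rev a) * inner ℝ (B.e a) x ^ 2 ≤ ‖Φ x‖ ^ 2 := by
        rw [hq2]
        exact single_le_sum (f := fun a => μ (Fin.rev a) * inner ℝ (B.e a) x ^ 2)
          (fun j _ => mul_nonneg (hμpos _).le (sq_nonneg _)) (mem_univ a)
      refine h2.trans ?_
      rw [hΦn]
      refine (sum_le_card_nsmul _ _ (κ ^ 2) fun i _ => ?_).trans ?_
      · rw [← sq_abs]
        exact pow_le_pow_left₀ (abs_nonneg _) (hx i) 2
      · rw [card_univ, nsmul_eq_mul]
    have hm := hμpos (Fin.rev a)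
    have h3 : |inner ℝ (B.e a) x| ≤ Real.sqrt (Fintype.card ι) * κ / Real.sqrt (μ (Fin.rev a)) := by
      rw [le_div_iff₀ (Real.sqrt_pos.mpr hm)]
      have h4 : (|inner ℝ (B.e a) x| * Real.sqrt (μ (Fin.rev a))) ^ 2 ≤
          (Real.sqrt (Fintype.card ι) * κ) ^ 2 := by
        rw [mul_pow, mul_pow, Real.sq_sqrt hm.le, Real.sq_sqrt (Nat.cast_nonneg _), sq_abs]
        linarith
      exact le_of_sq_le_sq h4 (by positivity)
    refine h3.trans ?_
    have h5 := (hs2 a).le
    have h6 : Real.sqrt (Fintype.card ι) * κ / Real.sqrt (μ (Fin.rev a)) =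
        Real.sqrt (N * Fintype.card ι) * κ * (1 / Real.sqrt (N * μ (Fin.rev a))) := by
      rw [Real.sqrt_mul hN.le, Real.sqrt_mul hN.le]
      have := (Real.sqrt_pos.mpr hN).ne'
      have := (Real.sqrt_pos.mpr hm).ne'
      field_simp
    rw [h6]
    calc Real.sqrt (N * Fintype.card ι) * κ * (1 / Real.sqrt (N * μ (Fin.rev a)))
        ≤ Real.sqrt (N * Fintype.card ι) * κ * (2 * B.s a) :=
          mul_le_mul_of_nonneg_left h5 (by positivity)
      _ = 2 * Real.sqrt (N * Fintype.card ι) * κ * B.s a := by ring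

/-- The functionals of a body. -/
noncomputable def Bd.fn (B : Bd N) (a : Fin N) : Sp N →ₗ[ℝ] ℝ :=
  (B.s a)⁻¹ • (innerₛₗ ℝ (B.e a))

theorem Bd.fn_apply (B : Bd N) (a : Fin N) (x : Sp N) :
    B.fn a x = (B.s a)⁻¹ * inner ℝ (B.e a) x := rfl

theorem Bd.fn_le {B : Bd N} {κ : ℝ} {a : Fin N} {x : Sp N} :
    |B.fn a x| ≤ κ ↔ |inner ℝ (B.e a) x| ≤ κ * B.s a := by
  rw [Bd.fn_apply, abs_mul, abs_of_pos (inv_pos.mpr (B.s_pos a)), inv_mul_le_iff₀ (B.s_pos a),
    mul_comm]

theorem Bd.mem_mul_iff {B : Bd N} {κ : ℝ} {x : Sp N} : x ∈ B.mul κ ↔ ∀ a, |B.fn a x| ≤ κ :=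
  forall_congr' fun _ => Bd.fn_le.symm

theorem Bd.fn_inj {B : Bd N} {x : Sp N} (h : ∀ a, B.fn a x = 0) : x = 0 := by
  rw [← B.e.sum_repr' x]
  refine sum_eq_zero fun a _ => ?_
  have h1 := h a
  rw [Bd.fn_apply, mul_eq_zero, inv_eq_zero] at h1
  rcases h1 with h1 | h1
  · exact absurd h1 (B.s_pos a).ne'
  · rw [h1, zero_smul]

/-- **The join of two bodies.** -/
theorem exists_join (A B : Bd N) : ∃ J : Bd N, J.le 1 A ∧ J.le 1 B ∧
    ∀ κ, 0 ≤ κ → A.mul κ ∩ B.mul κ ⊆ J.mul (4 * N * κ) := by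
  obtain ⟨J, h1, h2⟩ := exists_body (N := N) (ι := Fin N ⊕ Fin N)
    (Sum.elim A.fn B.fn) (fun x hx => Bd.fn_inj (B := A) fun a => hx (Sum.inl a))
  refine ⟨J, fun x hx => ?_, fun x hx => ?_, fun κ hκ x hx => ?_⟩
  · exact Bd.mem_mul_iff.mpr fun a => h1 x hx (Sum.inl a)
  · exact Bd.mem_mul_iff.mpr fun a => h1 x hx (Sum.inr a)
  · have h3 := h2 κ hκ x (by
      rintro (a | a)
      · exact Bd.mem_mul_iff.mp hx.1 a
      · exact Bd.mem_mul_iff.mp hx.2 a)
    refine Bd.mul_mono ?_ J h3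
    have h4 : Real.sqrt (N * Fintype.card (Fin N ⊕ Fin N)) ≤ 2 * N := by
      rw [Real.sqrt_le_left (by positivity)]
      simp only [Fintype.card_sum, Fintype.card_fin]
      push_cast
      nlinarith [sq_nonneg (N : ℝ)]
    nlinarith

/-- **The image of a body** by a linear isomorphism. -/
theorem exists_img (B : Bd N) (L : Sp N ≃ₗ[ℝ] Sp N) : ∃ I : Bd N,
    (∀ x ∈ I.set, L.symm x ∈ B.set) ∧ ∀ κ, 0 ≤ κ → ∀ x ∈ B.mul κ, L x ∈ I.mul (2 * N * κ) := by
  obtain ⟨I, h1, h2⟩ := exists_body (N := N) (ι := Fin N)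
    (fun a => B.fn a ∘ₗ L.symm.toLinearMap) (fun x hx => by
      have h1 : L.symm x = 0 := Bd.fn_inj (B := B) hx
      simpa using h1)
  refine ⟨I, fun x hx => ?_, fun κ hκ x hx => ?_⟩
  · rw [← Bd.mul_one]
    exact Bd.mem_mul_iff.mpr fun a => h1 x hx a
  · have h3 := h2 κ hκ (L x) (fun a => by
      simpa using Bd.mem_mul_iff.mp hx a)
    refine Bd.mul_mono ?_ I h3
    have h4 : Real.sqrt (N * Fintype.card (Fin N)) ≤ N := by
      rw [Real.sqrt_le_left (by positivity), Fintype.card_fin, sq]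
    nlinarith

end Pool.LAT
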