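import Pool.Agent.H96.LAT.Wedge

/-!
# The lattice lemma

Two boxes of the same type `r`, with a box `Bx v s` inside both. The `k`-th side of the common coarse
box grows only if a longer side of `Bx v s` drops: each point of the second box has coordinates at
most `C * (∏ j < k, r j / s j) * max (r a) (r k)` in the axes of the first box.
-/

set_option autoImplicit false

namespace Pool.LAT

open Finset

variable {E : Type*} [NormedAddCommGroup E] [InnerProductSpace ℝ E] {N : ℕ}

theorem det_updateRow_diagonal {n : ℕ} (s b : Fin n → ℝ) (i₀ : Fin n) :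
    ((Matrix.diagonal s).updateRow i₀ b).det = (∏ j ∈ univ.erase i₀, s j) * b i₀ := by
  rw [← Matrix.cramer_transpose_apply, Matrix.diagonal_transpose, Matrix.cramer_eq_adjugate_mulVec,
    Matrix.adjugate_diagonal, Matrix.mulVec_diagonal]

/-- One coordinate of a vector of the box, in an orthonormal system whose other vectors, multiplied
by `s i`, are in the box. -/
theorem comp_le (f : OrthonormalBasis (Fin N) ℝ E) {r : Fin N → ℝ} (h0 : ∀ a, 0 ≤ r a)
    (hr : Antitone r) {n : ℕ} (hn : n ≤ N) {y : Fin n → E} (hy : Orthonormal ℝ y)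
    {s : Fin n → ℝ} (hs : ∀ i, 0 < s i) (i₀ : Fin n) {x : E} (hx : x ∈ Bx f r)
    (hi : ∀ i, i ≠ i₀ → s i • y i ∈ Bx f r) :
    |inner ℝ (y i₀) x| * ∏ i ∈ univ.erase i₀, s i ≤
      (N : ℝ) ^ n * n.factorial * ∏ i : Fin n, r (Fin.castLE hn i) := by
  classical
  have h1 := wedge f h0 hr hn (fun i => if i = i₀ then x else s i • y i) (fun i => by
    by_cases h : i = i₀
    · simpa [h] using hx
    · simpa [h] using hi i h) y (fun j => (hy.1 j).le)
  have h2 : (Matrix.of fun i j => inner ℝ (y j) (if i = i₀ then x else s i • y i)) =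
      (Matrix.diagonal s).updateRow i₀ (fun j => inner ℝ (y j) x) := by
    ext i j
    rw [Matrix.of_apply, Matrix.updateRow_apply]
    by_cases h : i = i₀
    · simp [h]
    · rw [if_neg h, if_neg h, inner_smul_right, Matrix.diagonal_apply]
      by_cases hij : i = j
      · subst hij
        rw [if_pos rfl, real_inner_self_eq_norm_sq, hy.1 i]
        ring
      · rw [if_neg hij, hy.2 (Ne.symm hij), mul_zero]
  rw [h2, det_updateRow_diagonal, abs_mul, abs_of_pos (prod_pos fun i _ => hs i), mul_comm] at h1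
  exact h1

/-- The constant of the lattice lemma. -/
noncomputable def cL (N : ℕ) : ℝ := N * ((N : ℝ) ^ N * N.factorial)

theorem pow_fac_le {N n : ℕ} (hn : n ≤ N) (hN : 0 < N) :
    (N : ℝ) ^ n * n.factorial ≤ (N : ℝ) ^ N * N.factorial := by
  have h1 : (1 : ℝ) ≤ N := by exact_mod_cast hN
  have h2 : (N : ℝ) ^ n ≤ (N : ℝ) ^ N := pow_le_pow_right₀ h1 hn
  have h3 : (n.factorial : ℝ) ≤ N.factorial := by exact_mod_cast Nat.factorial_le hn
  exact mul_le_mul h2 h3 (by positivity) (by positivity)

theorem prod_castLE_Iio (r : Fin N → ℝ) (k : Fin N) :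
    ∏ i : Fin (k : ℕ), r (Fin.castLE k.2.le i) = ∏ j ∈ Iio k, r j := by
  classical
  have : (Iio k : Finset (Fin N)) = univ.image (fun i : Fin (k : ℕ) => Fin.castLE k.2.le i) := by
    ext j
    simp only [mem_Iio, mem_image, mem_univ, true_and]
    constructor
    · intro h
      exact ⟨⟨j, h⟩, by ext; rfl⟩
    · rintro ⟨i, rfl⟩
      exact i.2
  rw [this, prod_image fun i _ j _ h => Fin.castLE_injective _ h]

/-- **The coordinates of a vector of the box in the axes of the inner box.** -/
theorem coord_le (f v : OrthonormalBasis (Fin N) ℝ E) {r s : Fin N → ℝ} (h0 : ∀ a, 0 < r a)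
    (hr : Antitone r) (hs : ∀ a, 0 < s a) (hf : Bx v s ⊆ Bx f r) (k : Fin N) {x : E}
    (hx : x ∈ Bx f r) (b : Fin N) :
    |inner ℝ (v b) x| ≤ (N : ℝ) ^ N * N.factorial * (∏ j ∈ Iio k, r j / s j) *
      if b < k then s b else r k := by
  classical
  have hN : 0 < N := k.pos
  have hsv : ∀ j, s j • v j ∈ Bx f r := by
    intro j
    refine hf fun a => ?_
    rw [inner_smul_right, abs_mul, abs_of_pos (hs j)]
    by_cases h : a = j
    · subst h
      rw [real_inner_self_eq_norm_sq, v.norm_eq_one]
      norm_num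
    · rw [v.orthonormal.2 h, abs_zero, mul_zero]
      exact (hs a).le
  have hP : ∏ j ∈ Iio k, r j / s j = (∏ j ∈ Iio k, r j) / ∏ j ∈ Iio k, s j := prod_div_distrib ..
  have hS : 0 < ∏ j ∈ Iio k, s j := prod_pos fun j _ => hs j
  have hR : 0 < ∏ j ∈ Iio k, r j := prod_pos fun j _ => h0 j
  split_ifs with hb
  · -- a coordinate inside
    set y : Fin (k : ℕ) → E := fun i => v (Fin.castLE k.2.le i) with hy
    have hyo : Orthonormal ℝ y := v.orthonormal.comp _ (Fin.castLE_injective _)
    have h1 := comp_le f (fun a => (h0 a).le) hr k.2.le hyo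
      (s := fun i => s (Fin.castLE k.2.le i)) (fun i => hs _) ⟨b, hb⟩ hx (fun i _ => hsv _)
    have h2 : y ⟨b, hb⟩ = v b := by simp [hy]
    have h3 : s b * ∏ i ∈ univ.erase (⟨b, hb⟩ : Fin (k : ℕ)), s (Fin.castLE k.2.le i) =
        ∏ j ∈ Iio k, s j := by
      rw [← prod_castLE_Iio s k, ← mul_prod_erase univ _ (mem_univ (⟨b, hb⟩ : Fin (k : ℕ)))]
      simp
    rw [h2, prod_castLE_Iio] at h1
    have h4 := h1.trans (mul_le_mul_of_nonneg_right (pow_fac_le k.2.le hN) hR.le)
    rw [hP]
    have h5 : |inner ℝ (v b) x| * ∏ j ∈ Iio k, s j ≤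
        (N : ℝ) ^ N * N.factorial * (∏ j ∈ Iio k, r j) * s b := by
      rw [← h3]
      nlinarith [mul_le_mul_of_nonneg_right h4 (hs b).le]
    rw [← le_div_iff₀ hS] at h5
    refine h5.trans (le_of_eq ?_)
    ring
  · -- a coordinate outside
    have hkb : k ≤ b := not_lt.mp hb
    set y : Fin ((k : ℕ) + 1) → E := Fin.snoc (fun i : Fin (k : ℕ) => v (Fin.castLE k.2.le i))
      (v b) with hy
    set σ : Fin ((k : ℕ) + 1) → Fin N := Fin.snoc (fun i : Fin (k : ℕ) => Fin.castLE k.2.le i)
      b with hσ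
    have hyσ : y = fun i => v (σ i) := by
      ext1 i
      refine Fin.lastCases ?_ (fun i => ?_) i
      · simp [hy, hσ]
      · simp [hy, hσ]
    have hinj : Function.Injective σ := by
      intro i j
      refine Fin.lastCases ?_ (fun i => ?_) i
      · refine Fin.lastCases ?_ (fun j => ?_) j
        · intro _; rfl
        · intro h
          simp only [hσ, Fin.snoc_last, Fin.snoc_castSucc] at h
          have h1 : (b : ℕ) = j := congrArg Fin.val h
          have h2 : (k : ℕ) ≤ b := hkb
          have h3 := j.2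
          omega
      · refine Fin.lastCases ?_ (fun j => ?_) j
        · intro h
          simp only [hσ, Fin.snoc_last, Fin.snoc_castSucc] at h
          have h1 : (i : ℕ) = b := congrArg Fin.val h
          have h2 : (k : ℕ) ≤ b := hkb
          have h3 := i.2
          omega
        · intro h
          simp only [hσ, Fin.snoc_castSucc] at h
          exact congrArg Fin.castSucc (Fin.castLE_injective _ h)
    have hyo : Orthonormal ℝ y := by
      rw [hyσ]
      exact v.orthonormal.comp _ hinj
    have h1 := comp_le f (fun a => (h0 a).le) hr (Nat.succ_le_of_lt k.2) hyo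
      (s := fun i => s (σ i)) (fun i => hs _) (Fin.last _) hx (fun i _ => by
        rw [hyσ]
        exact hsv _)
    have h2 : y (Fin.last _) = v b := by simp [hy]
    have h3 : ∏ i ∈ univ.erase (Fin.last (k : ℕ)), s (σ i) = ∏ j ∈ Iio k, s j := by
      rw [← prod_castLE_Iio s k]
      have h4 := Fin.prod_univ_castSucc (fun i => s (σ i))
      have h5 := mul_prod_erase univ (fun i => s (σ i)) (mem_univ (Fin.last (k : ℕ)))
      have h6 : 0 < s (σ (Fin.last (k : ℕ))) := hs _
      have h7 : ∏ i ∈ univ.erase (Fin.last (k : ℕ)), s (σ i) =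
          ∏ i : Fin (k : ℕ), s (σ (Fin.castSucc i)) := by
        have : s (σ (Fin.last (k : ℕ))) * ∏ i ∈ univ.erase (Fin.last (k : ℕ)), s (σ i) =
            s (σ (Fin.last (k : ℕ))) * ∏ i : Fin (k : ℕ), s (σ (Fin.castSucc i)) := by
          rw [h5, h4, mul_comm]
        exact mul_left_cancel₀ h6.ne' this
      rw [h7]
      refine prod_congr rfl fun i _ => ?_
      simp [hσ]
    have h8 : ∏ i : Fin ((k : ℕ) + 1), r (Fin.castLE (Nat.succ_le_of_lt k.2) i) =
        (∏ j ∈ Iio k, r j) * r k := by
      rw [Fin.prod_univ_castSucc, ← prod_castLE_Iio r k]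
      rfl
    rw [h2, h3, h8] at h1
    have h9 := h1.trans (mul_le_mul_of_nonneg_right (pow_fac_le (Nat.succ_le_of_lt k.2) hN)
      (mul_nonneg hR.le (h0 k).le))
    rw [← le_div_iff₀ hS] at h9
    rw [hP]
    refine h9.trans (le_of_eq ?_)
    ring

/-- **The lattice lemma.** -/
theorem lat (e f v : OrthonormalBasis (Fin N) ℝ E) {r s : Fin N → ℝ} (h0 : ∀ a, 0 < r a)
    (hr : Antitone r) (hs : ∀ a, 0 < s a) (he : Bx v s ⊆ Bx e r) (hf : Bx v s ⊆ Bx f r)
    (k : Fin N) {x : E} (hx : x ∈ Bx f r) (a : Fin N) :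
    |inner ℝ (e a) x| ≤ cL N * (∏ j ∈ Iio k, r j / s j) * max (r a) (r k) := by
  classical
  have hD : 0 ≤ ∏ j ∈ Iio k, r j / s j := prod_nonneg fun j _ => (div_pos (h0 j) (hs j)).le
  have hC : (0 : ℝ) ≤ (N : ℝ) ^ N * N.factorial := by positivity
  have h1 : inner ℝ (e a) x = ∑ b, inner ℝ (v b) x * inner ℝ (e a) (v b) := by
    conv_lhs => rw [← v.sum_repr' x, inner_sum]
    exact sum_congr rfl fun b _ => by rw [inner_smul_right]
  rw [h1]
  refine (abs_sum_le_sum_abs _ _).trans ?_
  have h2 : ∀ b ∈ (univ : Finset (Fin N)), |inner ℝ (v b) x * inner ℝ (e a) (v b)| ≤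
      (N : ℝ) ^ N * N.factorial * (∏ j ∈ Iio k, r j / s j) * max (r a) (r k) := by
    intro b _
    rw [abs_mul]
    have h3 := coord_le f v h0 hr hs hf k hx b
    have hCD := mul_nonneg hC hD
    split_ifs at h3 with hb
    · have h4 : s b * |inner ℝ (e a) (v b)| ≤ r a := by
        have h5 : s b • v b ∈ Bx e r := by
          refine he fun c => ?_
          rw [inner_smul_right, abs_mul, abs_of_pos (hs b)]
          by_cases h : c = b
          · subst h
            rw [real_inner_self_eq_norm_sq, v.norm_eq_one]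
            norm_num
          · rw [v.orthonormal.2 h, abs_zero, mul_zero]
            exact (hs c).le
        have h6 := h5 a
        rw [inner_smul_right, abs_mul, abs_of_pos (hs b)] at h6
        exact h6
      calc |inner ℝ (v b) x| * |inner ℝ (e a) (v b)|
          ≤ ((N : ℝ) ^ N * N.factorial * (∏ j ∈ Iio k, r j / s j) * s b) *
            |inner ℝ (e a) (v b)| := mul_le_mul_of_nonneg_right h3 (abs_nonneg _)
        _ = (N : ℝ) ^ N * N.factorial * (∏ j ∈ Iio k, r j / s j) *
            (s b * |inner ℝ (e a) (v b)|) := by ring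
        _ ≤ (N : ℝ) ^ N * N.factorial * (∏ j ∈ Iio k, r j / s j) * max (r a) (r k) :=
            mul_le_mul_of_nonneg_left (h4.trans (le_max_left _ _)) hCD
    · have h4 : |inner ℝ (e a) (v b)| ≤ 1 := by
        refine (abs_real_inner_le_norm _ _).trans ?_
        rw [e.norm_eq_one, v.norm_eq_one, mul_one]
      calc |inner ℝ (v b) x| * |inner ℝ (e a) (v b)|
          ≤ ((N : ℝ) ^ N * N.factorial * (∏ j ∈ Iio k, r j / s j) * r k) * 1 :=
            mul_le_mul h3 h4 (abs_nonneg _) (mul_nonneg hCD (h0 k).le)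
        _ ≤ (N : ℝ) ^ N * N.factorial * (∏ j ∈ Iio k, r j / s j) * max (r a) (r k) := by
            rw [mul_one]
            exact mul_le_mul_of_nonneg_left (le_max_right _ _) hCD
  refine (sum_le_card_nsmul _ _ _ h2).trans (le_of_eq ?_)
  rw [card_univ, Fintype.card_fin, nsmul_eq_mul, cL]
  ring

end Pool.LAT
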