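import Pool.Agent.H96.LAT.Join

/-!
# A net of bodies

`net B`: a body within the factor `2` of `B`; the values of `net` near a given body are determined by
a code with boundedly many values.
-/

set_option autoImplicit false

namespace Pool.LAT

open Finset

variable {N : ℕ}

/-- Two bodies are comparable. -/
def Bd.near (κ : ℝ) (A B : Bd N) : Prop := A.le κ B ∧ B.le κ A

theorem Bd.near.symm {κ : ℝ} {A B : Bd N} (h : A.near κ B) : B.near κ A := ⟨h.2, h.1⟩

theorem Bd.near.trans {κ κ' : ℝ} {A B D : Bd N} (h : A.near κ B) (h' : B.near κ' D) (hκ : 0 < κ)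
    (hκ' : 0 < κ') : A.near (κ * κ') D :=
  ⟨h.1.trans h'.1 hκ, by rw [mul_comm]; exact h'.2.trans h.2 hκ'⟩

theorem Bd.near.mono {κ κ' : ℝ} {A B : Bd N} (h : A.near κ B) (hκ : κ ≤ κ') : A.near κ' B :=
  ⟨h.1.mono hκ, h.2.mono hκ⟩

theorem Bd.near_refl (B : Bd N) : B.near 1 B := ⟨B.le_refl, B.le_refl⟩

theorem exists_net (N : ℕ) : ∃ S : Set (Bd N), (∀ A ∈ S, ∀ B ∈ S, A.near 2 B → A = B) ∧
    ∀ B : Bd N, ∃ A ∈ S, A.near 2 B := by
  obtain ⟨S, hS⟩ := zorn_subset {S : Set (Bd N) | ∀ A ∈ S, ∀ B ∈ S, A.near 2 B → A = B} (by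
    intro c hc hchain
    refine ⟨⋃₀ c, ?_, fun s hs => Set.subset_sUnion_of_mem hs⟩
    rintro A ⟨s, hs, hA⟩ B ⟨t, ht, hB⟩ hAB
    rcases hchain.total hs ht with h | h
    · exact hc ht A (h hA) B hB hAB
    · exact hc hs A hA B (h hB) hAB)
  refine ⟨S, hS.prop, fun B => ?_⟩
  by_contra hcon
  push Not at hcon
  have hB : B ∉ S := fun h => hcon B h (B.near_refl.mono (by norm_num))
  have h1 : insert B S ∈ {S : Set (Bd N) | ∀ A ∈ S, ∀ B ∈ S, A.near 2 B → A = B} := by
    rintro A (rfl | hA) D (rfl | hD) h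
    · rfl
    · exact absurd h.symm (hcon D hD)
    · exact absurd h (hcon A hA)
    · exact hS.prop A hA D hD h
  exact hB (hS.le_of_ge h1 (Set.subset_insert B S) (Set.mem_insert B S))

/-- The net. -/
noncomputable def netS (N : ℕ) : Set (Bd N) := (exists_net N).choose

/-- The body of the net near a body. -/
noncomputable def Bd.net (B : Bd N) : Bd N := ((exists_net N).choose_spec.2 B).choose

theorem Bd.net_mem (B : Bd N) : B.net ∈ netS N := ((exists_net N).choose_spec.2 B).choose_spec.1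

theorem Bd.net_near (B : Bd N) : B.net.near 2 B :=
  ((exists_net N).choose_spec.2 B).choose_spec.2

theorem netS_eq {A B : Bd N} (hA : A ∈ netS N) (hB : B ∈ netS N) (h : A.near 2 B) : A = B :=
  (exists_net N).choose_spec.1 A hA B hB h

/-- The code of a body relative to another body. -/
noncomputable def Bd.code (κ : ℝ) (B A : Bd N) : Fin N × Fin N → ℤ := fun i =>
  ⌊N * κ * B.fn i.1 (A.s i.2 • A.e i.2)⌋

/-- The bound for the code. -/
noncomputable def cdB (N : ℕ) (κ : ℝ) : ℤ := ⌈N * κ * κ⌉ + 1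

theorem Bd.code_le {κ : ℝ} (hκ : 0 ≤ κ) {A B : Bd N} (h : A.le κ B) (i : Fin N × Fin N) :
    B.code κ A i ∈ Finset.Icc (-cdB N κ) (cdB N κ) := by
  have h1 : |B.fn i.1 (A.s i.2 • A.e i.2)| ≤ κ := Bd.mem_mul_iff.mp (h (A.ax_mem i.2)) i.1
  have h2 : |N * κ * B.fn i.1 (A.s i.2 • A.e i.2)| ≤ N * κ * κ := by
    rw [abs_mul, abs_of_nonneg (by positivity : (0 : ℝ) ≤ N * κ)]
    exact mul_le_mul_of_nonneg_left h1 (by positivity)
  rw [abs_le] at h2
  rw [Finset.mem_Icc, Bd.code, cdB]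
  have h3 : (N * κ * κ : ℝ) ≤ ⌈N * κ * κ⌉ := Int.le_ceil _
  constructor
  · rw [Int.le_floor]
    push_cast
    linarith
  · have h4 : ⌊N * κ * B.fn i.1 (A.s i.2 • A.e i.2)⌋ ≤ ⌈N * κ * κ⌉ := by
      have h5 := Int.floor_le (N * κ * B.fn i.1 (A.s i.2 • A.e i.2))
      exact_mod_cast (h5.trans h2.2).trans h3
    omega

/-- One half of the comparison of two bodies with the same code. -/
theorem Bd.le_of_code {κ : ℝ} (hκ : 0 < κ) {A A' B : Bd N} (hA' : B.le κ A')
    (hc : B.code κ A = B.code κ A') : A.le 2 A' := by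
  intro x hx
  set t : Fin N → ℝ := fun b => inner ℝ (A.e b) x / A.s b with ht
  have ht1 : ∀ b, |t b| ≤ 1 := fun b =>
    Bd.coef_le (B := A) (κ := 1) (by rw [Bd.mul_one]; exact hx) b
  by_cases hN : N = 0
  · subst hN
    exact fun a => a.elim0
  have hN0 : (0 : ℝ) < N := by exact_mod_cast Nat.pos_of_ne_zero hN
  have h1 : ∀ b, A.s b • A.e b - A'.s b • A'.e b ∈ B.mul (1 / (N * κ)) := by
    intro b
    refine Bd.mem_mul_iff.mpr fun a => ?_
    rw [map_sub]
    have h2 := congrFun hc (a, b)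
    simp only [Bd.code] at h2
    have h3 := Int.abs_sub_lt_one_of_floor_eq_floor h2
    rw [← mul_sub, abs_mul, abs_of_pos (by positivity : (0 : ℝ) < N * κ)] at h3
    rw [le_div_iff₀ (by positivity), mul_comm]
    exact h3.le
  have h2 : ∀ b, A.s b • A.e b - A'.s b • A'.e b ∈ A'.mul (1 / N) := by
    intro b
    have h3 := hA'.mul (κ' := 1 / (N * κ)) (by positivity) (h1 b)
    refine Bd.mul_mono (le_of_eq ?_) A' h3
    field_simp
  have h3 : x = ∑ b, t b • (A'.s b • A'.e b) + ∑ b, t b • (A.s b • A.e b - A'.s b • A'.e b) := by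
    rw [← sum_add_distrib]
    conv_lhs => rw [A.expand x]
    refine sum_congr rfl fun b _ => ?_
    rw [← smul_add, add_sub_cancel]
  rw [h3]
  have h4 : ∑ b, t b • (A'.s b • A'.e b) ∈ A'.mul 1 := by
    intro a
    rw [inner_sum]
    have h5 : ∑ b, inner ℝ (A'.e a) (t b • (A'.s b • A'.e b)) = t a * A'.s a := by
      rw [sum_eq_single a]
      · rw [inner_smul_right, inner_smul_right, real_inner_self_eq_norm_sq, A'.e.norm_eq_one]
        ring
      · intro b _ hb
        rw [inner_smul_right, inner_smul_right, A'.e.orthonormal.2 (Ne.symm hb)]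
        ring
      · intro hh
        exact absurd (mem_univ _) hh
    rw [h5, abs_mul, abs_of_pos (A'.s_pos a)]
    exact mul_le_mul_of_nonneg_right (ht1 a) (A'.s_pos a).le
  have h5 : ∑ b, t b • (A.s b • A.e b - A'.s b • A'.e b) ∈ A'.mul 1 := by
    have h6 := Bd.sum_mem (B := A') univ (κ := fun _ => 1 / (N : ℝ))
      (x := fun b => t b • (A.s b • A.e b - A'.s b • A'.e b)) (fun b _ => by
        have h7 := Bd.smul_mem (c := t b) (h2 b)
        refine Bd.mul_mono ?_ A' h7
        have := ht1 b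
        have h8 : (0 : ℝ) ≤ 1 / N := by positivity
        nlinarith)
    rw [sum_const, card_univ, Fintype.card_fin, nsmul_eq_mul, mul_one_div, div_self hN0.ne'] at h6
    exact h6
  have h6 := Bd.add_mem h4 h5
  norm_num at h6
  exact h6

/-- **The bodies of the net near a body are determined by their codes.** -/
theorem net_code {κ : ℝ} (hκ : 0 < κ) {A A' B : Bd N} (hA : A ∈ netS N) (hA' : A' ∈ netS N)
    (h : A.near κ B) (h' : A'.near κ B) (hc : B.code κ A = B.code κ A') : A = A' :=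
  netS_eq hA hA' ⟨Bd.le_of_code hκ h'.2 hc, Bd.le_of_code hκ h.2 hc.symm⟩

end Pool.LAT
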