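import Mathlib

/-!
# Wedge products of vectors of a box

`Bx e r`: the box with the axes `e` and the half sides `r`. A determinant of the scalar products of
`k` vectors of the box with `k` vectors of length at most `1` is at most a constant times the product
of the `k` longest sides.
-/

set_option autoImplicit false

namespace Pool.LAT

open Finset

variable {E : Type*} [NormedAddCommGroup E] [InnerProductSpace ℝ E] {N : ℕ}

/-- The box with the axes `e` and the half sides `r`. -/
def Bx (e : OrthonormalBasis (Fin N) ℝ E) (r : Fin N → ℝ) : Set E :=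
  {x | ∀ a, |inner ℝ (e a) x| ≤ r a}

theorem mem_Bx {e : OrthonormalBasis (Fin N) ℝ E} {r : Fin N → ℝ} {x : E} :
    x ∈ Bx e r ↔ ∀ a, |inner ℝ (e a) x| ≤ r a := Iff.rfl

/-- The product over a set of `k` indices is at most the product of the first `k` values. -/
theorem prod_le_first {r : Fin N → ℝ} (h0 : ∀ a, 0 ≤ r a) (hr : Antitone r) {k : ℕ} (hk : k ≤ N)
    (σ : Fin k → Fin N) (hσ : Function.Injective σ) :
    ∏ i, r (σ i) ≤ ∏ i : Fin k, r (Fin.castLE hk i) := by
  classical
  have hc : (univ.image σ).card = k := by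
    rw [card_image_of_injective _ hσ, card_univ, Fintype.card_fin]
  have h1 : ∏ i, r (σ i) = ∏ a ∈ univ.image σ, r a := by
    rw [prod_image fun i _ j _ h => hσ h]
  have h2 : ∏ a ∈ univ.image σ, r a =
      ∏ i : Fin k, r ((univ.image σ).orderEmbOfFin hc i) := by
    rw [← Finset.prod_coe_sort]
    exact (Fintype.prod_equiv ((univ.image σ).orderIsoOfFin hc).toEquiv
      (fun i => r ((univ.image σ).orderEmbOfFin hc i)) (fun a => r a) fun i => by
        simp [Finset.coe_orderIsoOfFin_apply]).symm
  rw [h1, h2]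
  refine prod_le_prod (fun i _ => h0 _) fun i _ => hr ?_
  -- the `i`-th element is at least `i`
  have h3 : ∀ i : Fin k, (i : ℕ) ≤ ((univ.image σ).orderEmbOfFin hc i : Fin N) := by
    intro i
    have hm : StrictMono fun i : Fin k => (((univ.image σ).orderEmbOfFin hc i : Fin N) : ℕ) :=
      fun a b hab => ((univ.image σ).orderEmbOfFin hc).strictMono hab
    obtain ⟨i, hi⟩ := i
    induction i with
    | zero => exact Nat.zero_le _
    | succ i ih =>
      have h4 := ih (Nat.lt_of_succ_lt hi)
      have h5 := hm (show (⟨i, Nat.lt_of_succ_lt hi⟩ : Fin k) < ⟨i + 1, hi⟩ from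
        Nat.lt_succ_self i)
      simp only at h4 h5 ⊢
      omega
  exact h3 i

/-- **Wedge products of vectors of a box.** -/
theorem wedge (e : OrthonormalBasis (Fin N) ℝ E) {r : Fin N → ℝ} (h0 : ∀ a, 0 ≤ r a)
    (hr : Antitone r) {k : ℕ} (hk : k ≤ N) (w : Fin k → E) (hw : ∀ i, w i ∈ Bx e r)
    (y : Fin k → E) (hy : ∀ j, ‖y j‖ ≤ 1) :
    |Matrix.det (Matrix.of fun i j => inner ℝ (y j) (w i))| ≤
      (N : ℝ) ^ k * k.factorial * ∏ i : Fin k, r (Fin.castLE hk i) := by
  classical
  set P : ℝ := ∏ i : Fin k, r (Fin.castLE hk i) with hP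
  have hP0 : 0 ≤ P := prod_nonneg fun i _ => h0 _
  -- expansion of the rows
  have hexp : (Matrix.of fun i j => inner ℝ (y j) (w i)) =
      Matrix.of fun i => ∑ a : Fin N, inner ℝ (e a) (w i) • fun j => inner ℝ (y j) (e a) := by
    ext i j
    simp only [Matrix.of_apply]
    rw [Finset.sum_apply]
    conv_lhs => rw [← e.sum_repr' (w i), inner_sum]
    refine sum_congr rfl fun a _ => ?_
    rw [inner_smul_right]
    simp
  have hdet : Matrix.det (Matrix.of fun i j => inner ℝ (y j) (w i)) =
      ∑ σ : Fin k → Fin N, (∏ i, inner ℝ (e (σ i)) (w i)) *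
        Matrix.det (Matrix.of fun i j => inner ℝ (y j) (e (σ i))) := by
    rw [hexp]
    have h1 := (Matrix.detRowAlternating (n := Fin k) (R := ℝ)).toMultilinearMap.map_sum
      (fun (i : Fin k) (a : Fin N) => inner ℝ (e a) (w i) • fun j : Fin k => inner ℝ (y j) (e a))
    have h2 : Matrix.det (Matrix.of fun i => ∑ a : Fin N, inner ℝ (e a) (w i) •
        fun j : Fin k => inner ℝ (y j) (e a)) =
        (Matrix.detRowAlternating (n := Fin k) (R := ℝ)).toMultilinearMap
          (fun i => ∑ a : Fin N, inner ℝ (e a) (w i) • fun j : Fin k => inner ℝ (y j) (e a)) :=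
      rfl
    rw [h2, h1]
    refine sum_congr rfl fun σ _ => ?_
    have h3 := (Matrix.detRowAlternating (n := Fin k) (R := ℝ)).toMultilinearMap.map_smul_univ
      (fun i => inner ℝ (e (σ i)) (w i)) (fun i => fun j : Fin k => inner ℝ (y j) (e (σ i)))
    rw [h3, smul_eq_mul]
    rfl
  rw [hdet]
  have hterm : ∀ σ : Fin k → Fin N, |(∏ i, inner ℝ (e (σ i)) (w i)) *
      Matrix.det (Matrix.of fun i j => inner ℝ (y j) (e (σ i)))| ≤ P * k.factorial := by
    intro σ
    rw [abs_mul]
    by_cases hσ : Function.Injective σ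
    · have h1 : |∏ i, inner ℝ (e (σ i)) (w i)| ≤ P := by
        rw [Finset.abs_prod]
        exact (prod_le_prod (fun i _ => abs_nonneg _) fun i _ => hw i (σ i)).trans
          (prod_le_first h0 hr hk σ hσ)
      have h2 : |Matrix.det (Matrix.of fun i j => inner ℝ (y j) (e (σ i)))| ≤
          k.factorial := by
        have h3 := Matrix.det_le (abv := (AbsoluteValue.abs : AbsoluteValue ℝ ℝ)) (x := 1)
          (A := Matrix.of fun i j : Fin k => inner ℝ (y j) (e (σ i))) (fun i j => by
            rw [AbsoluteValue.abs_apply, Matrix.of_apply]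
            refine (abs_real_inner_le_norm _ _).trans ?_
            rw [e.norm_eq_one, mul_one]
            exact hy j)
        rw [AbsoluteValue.abs_apply, Fintype.card_fin, one_pow, nsmul_eq_mul, mul_one] at h3
        exact h3
      exact mul_le_mul h1 h2 (abs_nonneg _) hP0
    · rw [Function.Injective] at hσ
      push Not at hσ
      obtain ⟨i, j, hij, hne⟩ := hσ
      have h1 : Matrix.det (Matrix.of fun i j => inner ℝ (y j) (e (σ i))) = 0 := by
        refine Matrix.det_zero_of_row_eq hne ?_
        ext l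
        simp only [Matrix.of_apply, hij]
      rw [h1, abs_zero, mul_zero]
      positivity
  refine (abs_sum_le_sum_abs _ _).trans ((sum_le_card_nsmul _ _ _ fun σ _ => hterm σ).trans ?_)
  rw [card_univ, Fintype.card_fun, Fintype.card_fin, Fintype.card_fin, nsmul_eq_mul]
  push_cast
  nlinarith [hP0]

end Pool.LAT
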